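import Pool.Agent.Y234.FP.Stm

/-! Project FP: weights; stability of the kernel of the functionals. -/

set_option autoImplicit false
set_option linter.all false

namespace Pool.Agent.Y427.FP

open MvPolynomial Pool.Agent.Y234.FP

universe u

theorem t_WE : St_WE := by
  intro r u
  have hz : Finsupp.weight (wt r) u = ∑ i, u i • wt r i := by
    rw [Finsupp.weight_apply]
    refine Finsupp.sum_fintype _ _ ?_
    intro i
    simp
  rw [hz, Fin.sum_univ_succ, Fin.sum_univ_succ]
  have h0 : wt r 0 = (1, 0) := rfl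
  have h1 : wt r (Fin.succ 0) = (1, 1) := rfl
  have h2 : ∀ i : Fin r, wt r i.succ.succ = (0, 1) := fun i => rfl
  rw [h0, h1]
  simp only [h2]
  refine Prod.ext ?_ ?_
  · rw [Prod.fst_add, Prod.fst_add, Prod.fst_sum]
    have e1 : (u 0 • ((1, 0) : ℤ × ℤ)).1 = (u 0 : ℤ) := by
      rw [Prod.smul_fst, nsmul_eq_mul, mul_one]
    have e2 : (u (Fin.succ 0) • ((1, 1) : ℤ × ℤ)).1 = (u 1 : ℤ) := by
      rw [Prod.smul_fst, nsmul_eq_mul, mul_one]
      rfl
    have e3 : ∀ i : Fin r, (u i.succ.succ • ((0, 1) : ℤ × ℤ)).1 = 0 := by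
      intro i
      rw [Prod.smul_fst, smul_zero]
    rw [e1, e2, Finset.sum_congr rfl fun i _ => e3 i, Finset.sum_const_zero, add_zero]
    unfold ax
    push_cast
    rfl
  · rw [Prod.snd_add, Prod.snd_add, Prod.snd_sum]
    have e1 : (u 0 • ((1, 0) : ℤ × ℤ)).2 = 0 := by
      rw [Prod.smul_snd, smul_zero]
    have e2 : (u (Fin.succ 0) • ((1, 1) : ℤ × ℤ)).2 = (u 1 : ℤ) := by
      rw [Prod.smul_snd, nsmul_eq_mul, mul_one]
      rfl
    have e3 : ∀ i : Fin r, (u i.succ.succ • ((0, 1) : ℤ × ℤ)).2 = (u i.succ.succ : ℤ) := by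
      intro i
      rw [Prod.smul_snd, nsmul_eq_mul, mul_one]
    rw [e1, e2, Finset.sum_congr rfl fun i _ => e3 i, zero_add]
    unfold bx yd
    push_cast
    rfl

section

variable {T : Type u} [CommRing T] {r m : ℕ} {β : Fin r → T}

/-- the value of a component -/
noncomputable def ev (β : Fin r → T) (c : ℤ × ℤ) : MvPolynomial (Fin (r + 2)) T →ₗ[T] T :=
  (aeval (pt β)).toLinearMap ∘ₗ (weightedHomogeneousComponent (wt r) c :
    MvPolynomial (Fin (r + 2)) T →ₗ[T] MvPolynomial (Fin (r + 2)) T)

theorem ev_monomial (c : ℤ × ℤ) (v : Fin (r + 2) →₀ ℕ) (t : T) :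
    ev β c (monomial v t) = if Finsupp.weight (wt r) v = c then t * ∏ j, pt β j ^ v j else 0 := by
  classical
  unfold ev
  rw [LinearMap.comp_apply]
  have h1 : weightedHomogeneousComponent (wt r) c (monomial v t) =
      if Finsupp.weight (wt r) v = c then monomial v t else 0 := by
    ext d
    rw [coeff_weightedHomogeneousComponent]
    by_cases hd : v = d
    · subst hd
      split_ifs <;> simp
    · rw [coeff_monomial, if_neg hd]
      split_ifs <;> simp [coeff_monomial, hd]
  rw [h1]
  split_ifs with h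
  · rw [AlgHom.toLinearMap_apply, aeval_monomial, Algebra.algebraMap_self, RingHom.id_apply,
      Finsupp.prod_fintype _ _ (fun i => pow_zero _)]
  · rw [map_zero]

theorem ev_sum (c : ℤ × ℤ) (F : MvPolynomial (Fin (r + 2)) T) :
    ev β c F = ∑ v ∈ F.support, if Finsupp.weight (wt r) v = c then
      coeff v F * ∏ j, pt β j ^ v j else 0 := by
  conv_lhs => rw [F.as_sum]
  rw [map_sum]
  exact Finset.sum_congr rfl fun v _ => ev_monomial c v _

theorem ev_X_monomial (c : ℤ × ℤ) (j : Fin (r + 2)) (v : Fin (r + 2) →₀ ℕ) (t : T) :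
    ev β c (X j * monomial v t) = pt β j * ev β (c - wt r j) (monomial v t) := by
  classical
  have e1 : (X j : MvPolynomial (Fin (r + 2)) T) * monomial v t =
      monomial (Finsupp.single j 1 + v) t := by
    rw [X, monomial_mul, one_mul]
  rw [e1, ev_monomial, ev_monomial]
  have e2 : Finsupp.weight (wt r) (Finsupp.single j 1 + v) = wt r j + Finsupp.weight (wt r) v := by
    rw [map_add, Finsupp.weight_single, one_smul]
  rw [e2]
  by_cases hc : Finsupp.weight (wt r) v = c - wt r j
  · have hc' : wt r j + Finsupp.weight (wt r) v = c := by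
      rw [hc]
      abel
    rw [if_pos hc, if_pos hc']
    have e3 : ∀ i, pt β i ^ ((Finsupp.single j 1 + v : Fin (r + 2) →₀ ℕ) i) =
        pt β i ^ ((Finsupp.single j 1 : Fin (r + 2) →₀ ℕ) i) * pt β i ^ v i := by
      intro i
      rw [Finsupp.add_apply, pow_add]
    have e4 : ∏ i, pt β i ^ ((Finsupp.single j 1 : Fin (r + 2) →₀ ℕ) i) = pt β j := by
      rw [Finset.prod_eq_single j]
      · rw [Finsupp.single_eq_same, pow_one]
      · intro i _ hi
        rw [Finsupp.single_eq_of_ne hi, pow_zero]
      · intro h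
        exact absurd (Finset.mem_univ _) h
    rw [Finset.prod_congr rfl fun i _ => e3 i, Finset.prod_mul_distrib, e4]
    ring
  · have hc' : ¬ (wt r j + Finsupp.weight (wt r) v = c) := by
      intro h
      apply hc
      rw [← h]
      abel
    rw [if_neg hc, if_neg hc', mul_zero]

theorem ev_X (c : ℤ × ℤ) (j : Fin (r + 2)) (F : MvPolynomial (Fin (r + 2)) T) :
    ev β c (X j * F) = pt β j * ev β (c - wt r j) F := by
  refine MvPolynomial.induction_on' F ?_ ?_
  · intro v t
    exact ev_X_monomial c j v t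
  · intro p q hp hq
    rw [mul_add, map_add, hp, hq, map_add, mul_add]

theorem coeff_zero_of (F : MvPolynomial (Fin (r + 2)) T) (hF : ∀ i : Ix r m, fn m β i F = 0)
    (v : Fin (r + 2) →₀ ℕ) (h1 : ax v < m) (h2 : bx v ≤ m) (h3 : yd v < m) : coeff v F = 0 := by
  have hle : ∀ i : Fin r, v i.succ.succ ≤ yd v := fun i =>
    Finset.single_le_sum (f := fun i : Fin r => v i.succ.succ) (fun _ _ => Nat.zero_le _)
      (Finset.mem_univ i)
  have hb : ∀ j, v j < 2 * m := by
    intro j
    unfold ax at h1
    refine Fin.cases ?_ (fun j => ?_) j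
    · omega
    · refine Fin.cases ?_ (fun i => ?_) j
      · have : v (Fin.succ 0) = v 1 := rfl
        omega
      · have := hle i
        omega
  let w : Ix1 r m := ⟨fun j => ⟨v j, hb j⟩, h1, h2, h3⟩
  have hw : toE w = v := by
    unfold toE
    ext j
    simp [w]
  have := hF (Sum.inl w)
  change lcoeff T (toE w) F = 0 at this
  rw [hw] at this
  exact this

end

theorem t_ST : St_ST.{u} := by
  intro T _ r m β hm hN F hF j i
  have hev : ∀ c : ℤ × ℤ, (m : ℤ) ≤ c.1 → c.1 < 2 * m → 0 ≤ c.2 → c.2 ≤ m → ev β c F = 0 := by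
    intro c h1 h2 h3 h4
    have h5 := hF (Sum.inr (⟨(c.1 - m).toNat, by omega⟩, ⟨c.2.toNat, by omega⟩))
    have h6 : dg (Sum.inr (⟨(c.1 - m).toNat, by omega⟩, ⟨c.2.toNat, by omega⟩) : Ix r m) = c := by
      refine Prod.ext ?_ ?_
      · change (((m + (c.1 - m).toNat : ℕ) : ℤ)) = c.1
        omega
      · change (((c.2.toNat : ℕ) : ℤ)) = c.2
        omega
    change ev β (dg (Sum.inr (⟨(c.1 - m).toNat, by omega⟩, ⟨c.2.toNat, by omega⟩) : Ix r m)) F = 0
      at h5
    rw [h6] at h5
    exact h5
  rcases i with w | p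
  · -- coefficients
    change coeff (toE w) (X j * F) = 0
    classical
    rw [coeff_X_mul']
    split_ifs with hj
    · obtain ⟨h1, h2, h3⟩ := w.2
      have hle : ∀ l, ((toE w - Finsupp.single j 1 : Fin (r + 2) →₀ ℕ) l) ≤ (w.1 l : ℕ) := by
        intro l
        rw [Finsupp.tsub_apply]
        exact Nat.sub_le _ _
      have hy : yd (toE w - Finsupp.single j 1) ≤ ∑ i : Fin r, (w.1 i.succ.succ : ℕ) :=
        Finset.sum_le_sum fun i _ => hle _
      apply coeff_zero_of (m := m) (β := β) F hF
      · unfold ax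
        have := hle 0
        have := hle 1
        omega
      · unfold bx
        have := hle 1
        omega
      · omega
    · rfl
  · -- values
    change ev β (dg (Sum.inr p : Ix r m)) (X j * F) = 0
    rw [ev_X]
    obtain ⟨a, b⟩ := p
    have hd : dg (Sum.inr (a, b) : Ix r m) = (((m + (a : ℕ) : ℕ) : ℤ), ((b : ℕ) : ℤ)) := rfl
    rw [hd]
    obtain ⟨c, hc⟩ : ∃ c : ℤ × ℤ, c = (((m + (a : ℕ) : ℕ) : ℤ), ((b : ℕ) : ℤ)) - wt r j := ⟨_, rfl⟩
    rw [← hc]
    have ha := a.2
    have hb := b.2
    have hwt : (wt r j = (1, 0) ∨ wt r j = (1, 1)) ∨ wt r j = (0, 1) := by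
      refine Fin.cases ?_ (fun j => ?_) j
      · exact Or.inl (Or.inl rfl)
      · refine Fin.cases ?_ (fun i => ?_) j
        · exact Or.inl (Or.inr rfl)
        · exact Or.inr rfl
    have hc1 : c.1 = m + a ∨ c.1 = m + a - 1 := by
      rcases hwt with (h | h) | h <;> rw [hc, h] <;> simp
    have hc1' : c.1 < 2 * m := by omega
    have hc2 : c.2 ≤ m := by
      rcases hwt with (h | h) | h <;> rw [hc, h] <;> simp <;> omega
    have h0 : ev β c F = 0 := by
      by_cases hneg : c.2 < 0
      · rw [ev_sum]
        refine Finset.sum_eq_zero fun v _ => ?_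
        rw [if_neg]
        intro h
        rw [t_WE] at h
        have := congrArg Prod.snd h
        simp only at this
        omega
      · by_cases hge : (m : ℤ) ≤ c.1
        · exact hev c hge hc1' (not_lt.1 hneg) hc2
        · rw [ev_sum]
          refine Finset.sum_eq_zero fun v _ => ?_
          split_ifs with h
          · rw [t_WE] at h
            have h1 := congrArg Prod.fst h
            have h2 := congrArg Prod.snd h
            simp only at h1 h2
            by_cases hy : yd v < m
            · rw [coeff_zero_of (m := m) (β := β) F hF v (by omega) (by omega) hy, zero_mul]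
            · have h3 : bx v = v 1 + yd v := rfl
              have h4 : yd v = m := by omega
              have h5 : ∏ j, pt β j ^ v j = 0 := by
                rw [Fin.prod_univ_succ, Fin.prod_univ_succ]
                have e1 : ∏ i : Fin r, pt β i.succ.succ ^ v i.succ.succ = 0 := by
                  have e2 : ∀ i : Fin r, pt β i.succ.succ ^ v i.succ.succ =
                      (-1) ^ v i.succ.succ * β i ^ v i.succ.succ := by
                    intro i
                    have : pt β i.succ.succ = - β i := rfl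
                    rw [this, neg_pow]
                  rw [Finset.prod_congr rfl fun i _ => e2 i, Finset.prod_mul_distrib,
                    hN (fun i => v i.succ.succ) h4, mul_zero]
                rw [e1, mul_zero, mul_zero]
              rw [h5, mul_zero]
          · rfl
    rw [h0, mul_zero]

end Pool.Agent.Y427.FP
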